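import Mathlib

set_option autoImplicit false

open Set Metric Filter Topology MeasureTheory

namespace Pool.Agent.Helper24.Cubic

/-! ### Integrals depending holomorphically on a parameter -/

section Param

variable {E : Type*} [NormedAddCommGroup E] [NormedSpace ℂ E] [FiniteDimensional ℂ E]

lemma param_integral (K : ℂ × E → ℂ) (hK : ContDiff ℂ 1 K) (x₀ : E) :
    HasFDerivAt (fun x : E => ∫ t in (0:ℝ)..1, K ((t:ℂ), x))
      (∫ t in (0:ℝ)..1, (fderiv ℂ K ((t:ℂ), x₀)).comp (ContinuousLinearMap.inr ℂ ℂ E)) x₀ := by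
  have : ProperSpace E := FiniteDimensional.proper ℂ E
  have hKc : Continuous K := hK.continuous
  have hK' : Continuous (fderiv ℂ K) := hK.continuous_fderiv (by norm_num)
  have hcomp : Continuous (fun p : ℂ × E => (fderiv ℂ K p).comp (ContinuousLinearMap.inr ℂ ℂ E)) :=
    hK'.clm_comp continuous_const
  -- bound on a compact set
  have hcpt : IsCompact (((fun t : ℝ => (t : ℂ)) '' Icc (0:ℝ) 1) ×ˢ closedBall x₀ 1) :=
    (isCompact_Icc.image Complex.continuous_ofReal).prod (isCompact_closedBall x₀ 1)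
  obtain ⟨C, hC⟩ := hcpt.exists_bound_of_continuousOn hcomp.continuousOn
  refine intervalIntegral.hasFDerivAt_integral_of_dominated_of_fderiv_le
    (F := fun x t => K ((t:ℂ), x))
    (F' := fun x t => (fderiv ℂ K ((t:ℂ), x)).comp (ContinuousLinearMap.inr ℂ ℂ E))
    (bound := fun _ => C) (s := closedBall x₀ 1) (closedBall_mem_nhds x₀ one_pos) ?_ ?_ ?_ ?_ ?_ ?_
  · refine Eventually.of_forall fun x => Continuous.aestronglyMeasurable ?_
    fun_prop
  · exact Continuous.intervalIntegrable (by fun_prop) _ _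
  · refine Continuous.aestronglyMeasurable ?_
    exact hcomp.comp (by fun_prop)
  · refine Eventually.of_forall fun t ht x hx => hC _ ⟨⟨t, ?_, rfl⟩, hx⟩
    rw [uIoc_of_le zero_le_one] at ht
    exact ⟨ht.1.le, ht.2⟩
  · exact intervalIntegrable_const
  · refine Eventually.of_forall fun t _ x _ => ?_
    have h1 : HasFDerivAt K (fderiv ℂ K ((t:ℂ), x)) ((t:ℂ), x) :=
      (hK.differentiable (by norm_num)).differentiableAt.hasFDerivAt
    exact h1.comp x (hasFDerivAt_prodMk_right (t:ℂ) x)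

end Param

/-! ### The function `E₁(y) = (exp y - 1) / y` -/

/-- `(exp y - 1) / y` -/
noncomputable def E1 : ℂ → ℂ := dslope Complex.exp 0

/-- `(E1 y - 1) / y` -/
noncomputable def E2 : ℂ → ℂ := dslope E1 0

lemma E1_mul (y : ℂ) : y * E1 y = Complex.exp y - 1 := by
  have := sub_smul_dslope Complex.exp 0 y
  rw [sub_zero, Complex.exp_zero, smul_eq_mul] at this
  exact this

lemma E1_zero : E1 0 = 1 := by
  rw [E1, dslope_same]
  simp

lemma E1_diff : Differentiable ℂ E1 := by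
  rw [← differentiableOn_univ, E1, Complex.differentiableOn_dslope univ_mem]
  exact Complex.differentiable_exp.differentiableOn

lemma E2_mul (y : ℂ) : y * E2 y = E1 y - 1 := by
  have := sub_smul_dslope E1 0 y
  rw [sub_zero, E1_zero, smul_eq_mul] at this
  exact this

lemma E2_diff : Differentiable ℂ E2 := by
  rw [← differentiableOn_univ, E2, Complex.differentiableOn_dslope univ_mem]
  exact E1_diff.differentiableOn

lemma E1_ode (y : ℂ) : (1 - y) * E1 y + y * deriv E1 y = 1 := by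
  have h1 : HasDerivAt (fun y => y * E1 y) (1 * E1 y + y * deriv E1 y) y :=
    (hasDerivAt_id y).mul (E1_diff y).hasDerivAt
  have h2 : HasDerivAt (fun y => y * E1 y) (Complex.exp y) y := by
    have : (fun y => y * E1 y) = fun y => Complex.exp y - 1 := by
      funext y; exact E1_mul y
    rw [this]
    exact (Complex.hasDerivAt_exp y).sub_const 1
  have h3 := h1.unique h2
  have h4 := E1_mul y
  linear_combination h3 - h4

/-! ### The kernel -/

/-- `R(t,w,a)` -/
noncomputable def RR (d κ t w a : ℂ) : ℂ :=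
  (κ - d * w * t) * Complex.exp (d * t ^ 3) * E1 (a * t ^ 2 * (κ - d * w * t))

/-- the `t`-derivative of `R` -/
noncomputable def RRt (d κ t w a : ℂ) : ℂ :=
  (-(d * w)) * Complex.exp (d * t ^ 3) * E1 (a * t ^ 2 * (κ - d * w * t)) +
  (κ - d * w * t) * (Complex.exp (d * t ^ 3) * (d * (3 * t ^ 2))) *
    E1 (a * t ^ 2 * (κ - d * w * t)) +
  (κ - d * w * t) * Complex.exp (d * t ^ 3) * (deriv E1 (a * t ^ 2 * (κ - d * w * t)) *
    (a * (2 * t) * (κ - d * w * t) + a * t ^ 2 * (-(d * w))))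

/-- `K(t,w,a) = (R(t,w,a) - κ) / t` -/
noncomputable def KK (d κ t w a : ℂ) : ℂ :=
  -(d * w) * Complex.exp (d * t ^ 3) * E1 (a * t ^ 2 * (κ - d * w * t)) +
  κ * (d * t ^ 2 * E1 (d * t ^ 3) * E1 (a * t ^ 2 * (κ - d * w * t)) +
    a * t * (κ - d * w * t) * E2 (a * t ^ 2 * (κ - d * w * t)))

lemma KK_mul (d κ t w a : ℂ) : t * KK d κ t w a = RR d κ t w a - κ := by
  have h1 := E1_mul (d * t ^ 3)
  have h2 := E2_mul (a * t ^ 2 * (κ - d * w * t))
  unfold KK RR
  linear_combination κ * E1 (a * t ^ 2 * (κ - d * w * t)) * h1 + κ * h2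

lemma RR_t (d κ t w a : ℂ) : HasDerivAt (fun t => RR d κ t w a) (RRt d κ t w a) t := by
  unfold RR RRt
  have hm : HasDerivAt (fun t : ℂ => κ - d * w * t) (-(d * w)) t := by
    simpa using ((hasDerivAt_id t).const_mul (d * w)).const_sub κ
  have he : HasDerivAt (fun t : ℂ => Complex.exp (d * t ^ 3))
      (Complex.exp (d * t ^ 3) * (d * (3 * t ^ 2))) t := by
    have : HasDerivAt (fun t : ℂ => d * t ^ 3) (d * (3 * t ^ 2)) t := by
      simpa using (hasDerivAt_pow 3 t).const_mul d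
    exact this.cexp
  have hy : HasDerivAt (fun t : ℂ => a * t ^ 2 * (κ - d * w * t))
      (a * (2 * t) * (κ - d * w * t) + a * t ^ 2 * (-(d * w))) t := by
    have : HasDerivAt (fun t : ℂ => a * t ^ 2) (a * (2 * t)) t := by
      simpa using (hasDerivAt_pow 2 t).const_mul a
    exact this.mul hm
  have hE : HasDerivAt (fun t : ℂ => E1 (a * t ^ 2 * (κ - d * w * t)))
      (deriv E1 (a * t ^ 2 * (κ - d * w * t)) *
    (a * (2 * t) * (κ - d * w * t) + a * t ^ 2 * (-(d * w)))) t :=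
    (E1_diff _).hasDerivAt.comp t hy
  refine ((hm.mul he).mul hE).congr_deriv ?_
  simp only [Pi.mul_apply]
  ring

lemma RR_v (d κ t w a : ℂ) :
    HasDerivAt (fun s => RR d κ t (w + s * (w * a - 3)) (a + s * (2 * a ^ 2)))
      (t * (a * RRt d κ t w a + 3 * d * Complex.exp (d * t ^ 3))) 0 := by
  unfold RR
  have hw : HasDerivAt (fun s : ℂ => w + s * (w * a - 3)) (w * a - 3) 0 := by
    simpa using ((hasDerivAt_id (0:ℂ)).mul_const (w * a - 3)).const_add w
  have ha : HasDerivAt (fun s : ℂ => a + s * (2 * a ^ 2)) (2 * a ^ 2) 0 := by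
    simpa using ((hasDerivAt_id (0:ℂ)).mul_const (2 * a ^ 2)).const_add a
  have hm : HasDerivAt (fun s : ℂ => κ - d * (w + s * (w * a - 3)) * t)
      (-(d * (w * a - 3) * t)) 0 := by
    simpa using ((hw.const_mul d).mul_const t).const_sub κ
  have hy : HasDerivAt (fun s : ℂ => (a + s * (2 * a ^ 2)) * t ^ 2 *
      (κ - d * (w + s * (w * a - 3)) * t))
      ((2 * a ^ 2) * t ^ 2 * (κ - d * w * t) + a * t ^ 2 * (-(d * (w * a - 3) * t))) 0 := by
    exact ((ha.mul_const (t ^ 2)).mul hm).congr_deriv (by simp)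
  have hE : HasDerivAt (fun s : ℂ => E1 ((a + s * (2 * a ^ 2)) * t ^ 2 *
      (κ - d * (w + s * (w * a - 3)) * t)))
      (deriv E1 (a * t ^ 2 * (κ - d * w * t)) *
        ((2 * a ^ 2) * t ^ 2 * (κ - d * w * t) + a * t ^ 2 * (-(d * (w * a - 3) * t)))) 0 := by
    have h := (E1_diff ((a + 0 * (2 * a ^ 2)) * t ^ 2 *
      (κ - d * (w + 0 * (w * a - 3)) * t))).hasDerivAt.comp (0:ℂ) hy
    exact h.congr_deriv (by simp)
  have ode := E1_ode (a * t ^ 2 * (κ - d * w * t))
  refine ((hm.mul_const (Complex.exp (d * t ^ 3))).mul hE).congr_deriv ?_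
  unfold RRt
  simp only [zero_mul, add_zero]
  linear_combination (3 * d * t * Complex.exp (d * t ^ 3)) * ode

lemma KK_contDiff (d κ : ℂ) :
    ContDiff ℂ 1 (fun p : ℂ × (ℂ × ℂ) => KK d κ p.1 p.2.1 p.2.2) := by
  have h1 : ContDiff ℂ 1 E1 := E1_diff.contDiff
  have h2 : ContDiff ℂ 1 E2 := E2_diff.contDiff
  unfold KK
  fun_prop

/-- the derivative of `K` in the direction `(wa - 3, 2a²)` -/
lemma KK_v (d κ t w a : ℂ) (ht : t ≠ 0) :
    (fderiv ℂ (fun p : ℂ × (ℂ × ℂ) => KK d κ p.1 p.2.1 p.2.2) (t, (w, a)))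
      (0, (w * a - 3, 2 * a ^ 2)) = a * RRt d κ t w a + 3 * d * Complex.exp (d * t ^ 3) := by
  have hK := (KK_contDiff d κ).differentiable (by norm_num) (t, (w, a))
  have hcurve : HasDerivAt (fun s : ℂ => ((t, (w + s * (w * a - 3), a + s * (2 * a ^ 2))) :
      ℂ × (ℂ × ℂ))) (0, (w * a - 3, 2 * a ^ 2)) 0 := by
    have hw : HasDerivAt (fun s : ℂ => w + s * (w * a - 3)) (w * a - 3) 0 := by
      simpa using ((hasDerivAt_id (0:ℂ)).mul_const (w * a - 3)).const_add w
    have ha : HasDerivAt (fun s : ℂ => a + s * (2 * a ^ 2)) (2 * a ^ 2) 0 := by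
      simpa using ((hasDerivAt_id (0:ℂ)).mul_const (2 * a ^ 2)).const_add a
    exact (hasDerivAt_const (0:ℂ) t).prodMk (hw.prodMk ha)
  have h1 : HasDerivAt (fun s : ℂ => KK d κ t (w + s * (w * a - 3)) (a + s * (2 * a ^ 2)))
      ((fderiv ℂ (fun p : ℂ × (ℂ × ℂ) => KK d κ p.1 p.2.1 p.2.2) (t, (w, a)))
      (0, (w * a - 3, 2 * a ^ 2))) 0 := by
    have hK' : HasFDerivAt (fun p : ℂ × (ℂ × ℂ) => KK d κ p.1 p.2.1 p.2.2)
      (fderiv ℂ (fun p : ℂ × (ℂ × ℂ) => KK d κ p.1 p.2.1 p.2.2) (t, (w, a)))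
      ((fun s : ℂ => ((t, (w + s * (w * a - 3), a + s * (2 * a ^ 2))) :
      ℂ × (ℂ × ℂ))) 0) := by
      simpa using hK.hasFDerivAt
    exact hK'.comp_hasDerivAt 0 hcurve
  have h2 := h1.const_mul t
  have h3 : HasDerivAt (fun s : ℂ => t * KK d κ t (w + s * (w * a - 3)) (a + s * (2 * a ^ 2)))
      (t * (a * RRt d κ t w a + 3 * d * Complex.exp (d * t ^ 3))) 0 := by
    have : (fun s : ℂ => t * KK d κ t (w + s * (w * a - 3)) (a + s * (2 * a ^ 2))) =
        fun s => RR d κ t (w + s * (w * a - 3)) (a + s * (2 * a ^ 2)) - κ := by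
      funext s; exact KK_mul _ _ _ _ _
    rw [this]
    exact (RR_v d κ t w a).sub_const κ
  exact mul_left_cancel₀ ht (h2.unique h3)

/-- existence of the parameter `d` -/
lemma exists_d : ∃ d : ℝ, Real.exp d = 3 * d * ∫ t in (0:ℝ)..1, Real.exp (d * t ^ 3) := by
  have hcont : Continuous fun d : ℝ => 3 * d * (∫ t in (0:ℝ)..1, Real.exp (d * t ^ 3)) -
      Real.exp d := by
    have : Continuous fun d : ℝ => ∫ t in (0:ℝ)..1, Real.exp (d * t ^ 3) := by
      apply intervalIntegral.continuous_parametric_intervalIntegral_of_continuous'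
      fun_prop
    fun_prop
  have h0 : (3 * (0:ℝ) * (∫ t in (0:ℝ)..1, Real.exp ((0:ℝ) * t ^ 3)) - Real.exp 0) ≤ 0 := by
    simp
  have h1 : 0 ≤ (3 * (1:ℝ) * (∫ t in (0:ℝ)..1, Real.exp ((1:ℝ) * t ^ 3)) - Real.exp 1) := by
    have hle : ∫ t in (0:ℝ)..1, (1:ℝ) ≤ ∫ t in (0:ℝ)..1, Real.exp ((1:ℝ) * t ^ 3) := by
      apply intervalIntegral.integral_mono_on zero_le_one
      · exact intervalIntegrable_const
      · exact Continuous.intervalIntegrable (by fun_prop) _ _
      · intro t ht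
        apply Real.one_le_exp
        have := ht.1
        positivity
    rw [intervalIntegral.integral_const] at hle
    have := Real.exp_one_lt_d9
    simp only [sub_zero, smul_eq_mul, mul_one] at hle
    linarith
  obtain ⟨d, -, hd⟩ := intermediate_value_Icc (zero_le_one (α := ℝ)) hcont.continuousOn ⟨h0, h1⟩
  exact ⟨d, by linarith⟩

/-- **Key lemma.** -/
theorem exists_h : ∃ h : ℂ × ℂ → ℂ, Differentiable ℂ h ∧
    ∀ w a : ℂ, a + fderiv ℂ h (w, a) (w * a - 3, 2 * a ^ 2) ≠ 0 := by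
  obtain ⟨d, hd⟩ := exists_d
  set κ : ℂ := Complex.exp d with hκ
  have hpar := param_integral (E := ℂ × ℂ) (fun p => KK d κ p.1 p.2.1 p.2.2) (KK_contDiff d κ)
  refine ⟨fun x => Complex.exp (-d) * ∫ t in (0:ℝ)..1, KK d κ t x.1 x.2, ?_, ?_⟩
  · intro x
    exact ((hpar x).differentiableAt).const_mul _
  · intro w a
    have h1 := (hpar (w, a)).const_mul (Complex.exp (-d))
    rw [h1.fderiv]
    have hint : IntervalIntegrable (fun t : ℝ => (fderiv ℂ (fun p : ℂ × (ℂ × ℂ) =>
        KK d κ p.1 p.2.1 p.2.2) ((t:ℂ), (w, a))).comp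
        (ContinuousLinearMap.inr ℂ ℂ (ℂ × ℂ))) volume 0 1 := by
      apply Continuous.intervalIntegrable
      have := (KK_contDiff d κ).continuous_fderiv (by norm_num)
      exact (this.comp (by fun_prop : Continuous fun t : ℝ => (((t:ℂ), (w, a)) :
        ℂ × (ℂ × ℂ)))).clm_comp continuous_const
    rw [_root_.smul_apply, ContinuousLinearMap.intervalIntegral_apply hint]
    have h2 : ∫ t in (0:ℝ)..1, ((fderiv ℂ (fun p : ℂ × (ℂ × ℂ) =>
        KK d κ p.1 p.2.1 p.2.2) ((t:ℂ), (w, a))).comp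
        (ContinuousLinearMap.inr ℂ ℂ (ℂ × ℂ))) (w * a - 3, 2 * a ^ 2) =
        ∫ t in (0:ℝ)..1, (a * RRt d κ t w a + 3 * d * Complex.exp (d * (t:ℂ) ^ 3)) := by
      apply intervalIntegral.integral_congr_ae
      rw [uIoc_of_le zero_le_one]
      refine Eventually.of_forall fun t ht => ?_
      have ht0 : (t:ℂ) ≠ 0 := by
        have := ht.1.ne'
        exact_mod_cast this
      rw [← KK_v d κ t w a ht0]
      rfl
    rw [h2]
    have hRcont : Continuous fun t : ℝ => RRt d κ t w a := by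
      have hE' : Continuous (deriv E1) := (E1_diff.contDiff (n := 1)).continuous_deriv (by norm_num)
      have hE : Continuous E1 := E1_diff.continuous
      unfold RRt
      fun_prop
    have h3 : ∫ t in (0:ℝ)..1, RRt d κ t w a = RR d κ 1 w a - RR d κ 0 w a := by
      have := intervalIntegral.integral_eq_sub_of_hasDerivAt (a := (0:ℝ)) (b := 1)
        (f := fun t : ℝ => RR d κ t w a) (f' := fun t : ℝ => RRt d κ t w a)
        (fun t _ => (RR_t d κ t w a).comp_ofReal) (hRcont.intervalIntegrable _ _)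
      simpa using this
    have h4 : ∫ t in (0:ℝ)..1, Complex.exp (d * (t:ℂ) ^ 3) =
        ((∫ t in (0:ℝ)..1, Real.exp (d * t ^ 3) : ℝ) : ℂ) := by
      rw [← intervalIntegral.integral_ofReal]
      congr 1
      funext t
      push_cast
      rfl
    rw [intervalIntegral.integral_add ((hRcont.intervalIntegrable _ _).const_mul _)
      (Continuous.intervalIntegrable (by fun_prop) _ _),
      intervalIntegral.integral_const_mul, intervalIntegral.integral_const_mul, h3, h4]
    have h5 : (3 * (d:ℂ)) * ((∫ t in (0:ℝ)..1, Real.exp (d * t ^ 3) : ℝ) : ℂ) = Complex.exp d := by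
      have : ((Real.exp d : ℝ) : ℂ) = ((3 * d * ∫ t in (0:ℝ)..1, Real.exp (d * t ^ 3) : ℝ) : ℂ) := by
        rw [← hd]
      push_cast at this
      rw [this]
    rw [h5]
    have h6 : RR d κ 0 w a = κ := by
      simp [RR, E1_zero]
    have h7 : a * RR d κ 1 w a = Complex.exp d * (Complex.exp (a * (κ - d * w)) - 1) := by
      rw [← E1_mul]
      simp only [RR, one_pow, mul_one]
      ring
    have h8 : Complex.exp (-(d:ℂ)) * Complex.exp d = 1 := by
      rw [← Complex.exp_add]; simp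
    have : a + Complex.exp (-(d:ℂ)) * (a * (RR d κ 1 w a - RR d κ 0 w a) + Complex.exp d) =
        Complex.exp (a * (κ - d * w)) := by
      rw [mul_sub, h7, h6]
      linear_combination (Complex.exp (a * (κ - d * w)) - a) * h8
    rw [smul_eq_mul, this]
    exact Complex.exp_ne_zero _

end Pool.Agent.Helper24.Cubic
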