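import Pool.Agent.Helper24.Cubic.Analytic

set_option autoImplicit false

open Set Metric Filter Topology

namespace Pool.Agent.Helper24.Cubic

/-! ### Homogeneous functions -/

lemma euler {H : Type*} [NormedAddCommGroup H] [NormedSpace ℂ H] {G : H → ℂ} {k : ℕ}
    (hG : Differentiable ℂ G) (hom : ∀ (t : ℂ) (u : H), G (t • u) = t ^ k * G u) (u : H) :
    fderiv ℂ G u u = k * G u := by
  have h1 : HasDerivAt (fun t : ℂ => t • u) u 1 := by
    simpa using (hasDerivAt_id (1:ℂ)).smul_const u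
  have h2 : HasFDerivAt G (fderiv ℂ G u) ((fun t : ℂ => t • u) 1) := by
    simpa using (hG u).hasFDerivAt
  have h3 := h2.comp_hasDerivAt (1:ℂ) h1
  have h4 : HasDerivAt (fun t : ℂ => t ^ k * G u) (k * G u) 1 := by
    have := (hasDerivAt_pow k (1:ℂ)).mul_const (G u)
    simpa using this
  have h5 : (G ∘ fun t : ℂ => t • u) = fun t : ℂ => t ^ k * G u := by
    funext t; exact hom t u
  rw [h5] at h3
  exact h3.unique h4

/-- **Core lemma**: the hypersurface `τ G(u) + f(u) = 1`, `G`, `f` homogeneous of degree `2`, `3`. -/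
theorem immersion_core {H : Type*} [NormedAddCommGroup H] [NormedSpace ℂ H] (G f : H → ℂ)
    (hG : Differentiable ℂ G) (hf : Differentiable ℂ f)
    (hG2 : ∀ (t : ℂ) (u : H), G (t • u) = t ^ 2 * G u)
    (hf3 : ∀ (t : ℂ) (u : H), f (t • u) = t ^ 3 * f u) :
    ∃ Φ : H × ℂ → H, Differentiable ℂ Φ ∧ ∀ z : H × ℂ, z.2 * G z.1 + f z.1 = 1 →
      ∀ v : H × ℂ, fderiv ℂ (fun p : H × ℂ => p.2 * G p.1 + f p.1) z v = 0 →
        fderiv ℂ Φ z v = 0 → v = 0 := by
  obtain ⟨h, hh, hΔ⟩ := exists_h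
  have hinner : Differentiable ℂ (fun p : H × ℂ => ((p.2, G p.1) : ℂ × ℂ)) := by fun_prop
  refine ⟨fun p => Complex.exp (h (p.2, G p.1)) • p.1, by fun_prop, ?_⟩
  rintro ⟨u, τ⟩ hX ⟨v, σ⟩ htan hker
  simp only at hX
  -- derivative of G at (u, τ)
  have hGd : HasFDerivAt (fun p : H × ℂ => G p.1)
      ((fderiv ℂ G u).comp (ContinuousLinearMap.fst ℂ H ℂ)) (u, τ) :=
    HasFDerivAt.comp (u, τ) (g := G) (f := Prod.fst) (hG u).hasFDerivAt hasFDerivAt_fst
  have hfd : HasFDerivAt (fun p : H × ℂ => f p.1)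
      ((fderiv ℂ f u).comp (ContinuousLinearMap.fst ℂ H ℂ)) (u, τ) :=
    HasFDerivAt.comp (u, τ) (g := f) (f := Prod.fst) (hf u).hasFDerivAt hasFDerivAt_fst
  have h2d : HasFDerivAt (fun p : H × ℂ => p.2) (ContinuousLinearMap.snd ℂ H ℂ) (u, τ) :=
    hasFDerivAt_snd
  have hpair : HasFDerivAt (fun p : H × ℂ => ((p.2, G p.1) : ℂ × ℂ))
      ((ContinuousLinearMap.snd ℂ H ℂ).prod
        ((fderiv ℂ G u).comp (ContinuousLinearMap.fst ℂ H ℂ))) (u, τ) := h2d.prodMk hGd
  have hhd : HasFDerivAt (fun p : H × ℂ => h (p.2, G p.1))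
      ((fderiv ℂ h (τ, G u)).comp ((ContinuousLinearMap.snd ℂ H ℂ).prod
        ((fderiv ℂ G u).comp (ContinuousLinearMap.fst ℂ H ℂ)))) (u, τ) :=
    HasFDerivAt.comp (u, τ) (g := h) (hh (τ, G u)).hasFDerivAt hpair
  set δ : ℂ := fderiv ℂ h (τ, G u) (σ, fderiv ℂ G u v) with hδ
  -- the kernel condition
  have hker' : v + δ • u = 0 := by
    have h1 := (hhd.cexp).smul (hasFDerivAt_fst (𝕜 := ℂ) (p := (u, τ)))
    change (fderiv ℂ ((fun x : H × ℂ => Complex.exp (h (x.2, G x.1))) • Prod.fst) (u, τ))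
      (v, σ) = 0 at hker
    rw [h1.fderiv] at hker
    simp only [_root_.add_apply, _root_.smul_apply,
      ContinuousLinearMap.smulRight_apply, ContinuousLinearMap.comp_apply,
      ContinuousLinearMap.prod_apply, ContinuousLinearMap.coe_fst',
      ContinuousLinearMap.coe_snd'] at hker
    rw [← hδ] at hker
    have h2 : Complex.exp (h (τ, G u)) • (v + δ • u) = 0 := by
      rw [smul_add, smul_smul]
      exact hker
    exact (smul_eq_zero.mp h2).resolve_left (Complex.exp_ne_zero _)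
  have hv : v = (-δ) • u := by
    rw [neg_smul]; exact eq_neg_of_add_eq_zero_left hker'
  have hGv : fderiv ℂ G u v = -(2 * δ * G u) := by
    rw [hv, map_smul, euler hG hG2 u, smul_eq_mul]; push_cast; ring
  have hfv : fderiv ℂ f u v = -(3 * δ * f u) := by
    rw [hv, map_smul, euler hf hf3 u, smul_eq_mul]; push_cast; ring
  -- the tangency condition
  have htan' : σ * G u + τ * fderiv ℂ G u v + fderiv ℂ f u v = 0 := by
    have h1 := (h2d.mul hGd).add hfd
    have h2 : (fun p : H × ℂ => p.2 * G p.1 + f p.1) = ((fun p : H × ℂ => p.2) * fun p : H × ℂ => G p.1) + fun p : H × ℂ => f p.1 := rfl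
    rw [h2, h1.fderiv] at htan
    simp only [_root_.add_apply, _root_.smul_apply, ContinuousLinearMap.comp_apply,
      ContinuousLinearMap.coe_fst', ContinuousLinearMap.coe_snd', smul_eq_mul] at htan
    linear_combination htan
  -- partial derivatives of h
  set hw : ℂ := fderiv ℂ h (τ, G u) (1, 0) with hhw
  set ha : ℂ := fderiv ℂ h (τ, G u) (0, 1) with hha
  have hlin : ∀ x y : ℂ, fderiv ℂ h (τ, G u) (x, y) = x * hw + y * ha := by
    intro x y
    have : ((x, y) : ℂ × ℂ) = x • ((1:ℂ), (0:ℂ)) + y • ((0:ℂ), (1:ℂ)) := by simp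
    rw [this, map_add, map_smul, map_smul, smul_eq_mul, smul_eq_mul]
  have hδ' : δ = σ * hw + fderiv ℂ G u v * ha := by rw [hδ, hlin]
  have hΔ' := hΔ τ (G u)
  rw [hlin] at hΔ'
  have hb : f u = 1 - τ * G u := by linear_combination hX
  rw [hGv] at hδ' htan'
  rw [hfv, hb] at htan'
  have e1 : δ * (1 + 2 * G u * ha) = σ * hw := by linear_combination hδ'
  have e2 : G u * σ + (τ * G u - 3) * δ = 0 := by linear_combination htan'
  have hδ0 : δ = 0 := by
    have : (G u + ((τ * G u - 3) * hw + 2 * G u ^ 2 * ha)) * δ = 0 := by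
      linear_combination (G u) * e1 + hw * e2
    exact (mul_eq_zero.mp this).resolve_left hΔ'
  have hσ0 : σ = 0 := by
    have : (G u + ((τ * G u - 3) * hw + 2 * G u ^ 2 * ha)) * σ = 0 := by
      linear_combination (1 + 2 * G u * ha) * e2 - (τ * G u - 3) * e1
    exact (mul_eq_zero.mp this).resolve_left hΔ'
  rw [hδ0, neg_zero, zero_smul] at hv
  rw [hv, hσ0]; rfl

/-! ### Homogeneous polynomials -/

lemma eval_smul_of_homogeneous {n d : ℕ} {q : MvPolynomial (Fin n) ℂ} (hq : q.IsHomogeneous d)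
    (t : ℂ) (x : Fin n → ℂ) :
    MvPolynomial.eval (t • x) q = t ^ d * MvPolynomial.eval x q := by
  rw [MvPolynomial.eval_eq', MvPolynomial.eval_eq', Finset.mul_sum]
  refine Finset.sum_congr rfl fun m hm => ?_
  have hdeg : ∑ i, m i = d := by
    have := hq (MvPolynomial.mem_support_iff.mp hm)
    rw [Finsupp.weight_apply] at this
    rw [← this, Finsupp.sum_fintype _ _ (by simp)]
    simp
  have : ∏ i, (t • x) i ^ m i = t ^ d * ∏ i, x i ^ m i := by
    simp only [Pi.smul_apply, smul_eq_mul, mul_pow]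
    rw [Finset.prod_mul_distrib, Finset.prod_pow_eq_pow_sum, hdeg]
  rw [this]; ring

lemma line_poly {n d : ℕ} {q : MvPolynomial (Fin n) ℂ} (hq : q.IsHomogeneous d)
    (x y : Fin n → ℂ) : ∃ P : Polynomial ℂ, P.natDegree ≤ d ∧
      ∀ t : ℂ, MvPolynomial.eval (t • x + y) q = P.eval t := by
  refine ⟨MvPolynomial.aeval (fun i => Polynomial.C (x i) * Polynomial.X + Polynomial.C (y i)) q,
    ?_, fun t => ?_⟩
  · have := MvPolynomial.aeval_natDegree_le (n := 1) q hq.totalDegree_le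
      (fun i => Polynomial.C (x i) * Polynomial.X + Polynomial.C (y i))
      (fun i => Polynomial.natDegree_linear_le)
    simpa using this
  · have h1 : (Polynomial.evalRingHom t).comp (MvPolynomial.aeval (fun i =>
        Polynomial.C (x i) * Polynomial.X + Polynomial.C (y i)) :
          MvPolynomial (Fin n) ℂ →ₐ[ℂ] Polynomial ℂ).toRingHom =
        MvPolynomial.eval (t • x + y) := by
      apply MvPolynomial.ringHom_ext
      · intro r; simp
      · intro i
        simp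
        ring
    have h2 := congrArg (fun φ : MvPolynomial (Fin n) ℂ →+* ℂ => φ q) h1
    simpa using h2.symm

/-- the cubic form `w³ + w g(z) + f(z)` -/
noncomputable def cubic {n : ℕ} (g f : MvPolynomial (Fin n) ℂ) (x : (Fin n → ℂ) × ℂ) : ℂ :=
  x.2 ^ 3 + x.2 * MvPolynomial.eval x.1 g + MvPolynomial.eval x.1 f

section

variable {n : ℕ} {g f : MvPolynomial (Fin n) ℂ}

lemma eval_differentiable (q : MvPolynomial (Fin n) ℂ) :
    Differentiable ℂ (fun x : Fin n → ℂ => MvPolynomial.eval x q) := by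
  induction q using MvPolynomial.induction_on with
  | C a => simp
  | add p q hp hq =>
    simp only [map_add]
    exact hp.add hq
  | mul_X p i hp =>
    simp only [map_mul, MvPolynomial.eval_X]
    exact hp.mul (by fun_prop)

lemma cubic_differentiable : Differentiable ℂ (cubic g f) := by
  have hg := eval_differentiable g
  have hf := eval_differentiable f
  unfold cubic
  have h1 : Differentiable ℂ (fun x : (Fin n → ℂ) × ℂ => MvPolynomial.eval x.1 g) :=
    hg.comp differentiable_fst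
  have h2 : Differentiable ℂ (fun x : (Fin n → ℂ) × ℂ => MvPolynomial.eval x.1 f) :=
    hf.comp differentiable_fst
  fun_prop

lemma cubic_smul (hg : g.IsHomogeneous 2) (hf : f.IsHomogeneous 3) (t : ℂ)
    (x : (Fin n → ℂ) × ℂ) : cubic g f (t • x) = t ^ 3 * cubic g f x := by
  unfold cubic
  rw [Prod.smul_fst, Prod.smul_snd, eval_smul_of_homogeneous hg, eval_smul_of_homogeneous hf,
    smul_eq_mul]
  ring

lemma cubic_line (hg : g.IsHomogeneous 2) (hf : f.IsHomogeneous 3) (x y : (Fin n → ℂ) × ℂ) :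
    ∃ c0 c1 c2 c3 : ℂ, ∀ t : ℂ, cubic g f (t • x + y) = c0 + c1 * t + c2 * t ^ 2 + c3 * t ^ 3 := by
  obtain ⟨P, hP, hPe⟩ := line_poly hg x.1 y.1
  obtain ⟨Q, hQ, hQe⟩ := line_poly hf x.1 y.1
  set L : Polynomial ℂ := Polynomial.C x.2 * Polynomial.X + Polynomial.C y.2 with hL
  have hLd : L.natDegree ≤ 1 := Polynomial.natDegree_linear_le
  set R : Polynomial ℂ := L ^ 3 + L * P + Q with hR
  have hRd : R.natDegree < 4 := by
    have h1 : (L ^ 3).natDegree ≤ 3 := (Polynomial.natDegree_pow_le).trans (by omega)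
    have h2 : (L * P).natDegree ≤ 3 := (Polynomial.natDegree_mul_le).trans (by omega)
    have h3 : R.natDegree ≤ 3 := by
      refine (Polynomial.natDegree_add_le _ _).trans (max_le ?_ hQ)
      exact (Polynomial.natDegree_add_le _ _).trans (max_le h1 h2)
    omega
  refine ⟨R.coeff 0, R.coeff 1, R.coeff 2, R.coeff 3, fun t => ?_⟩
  have h1 : cubic g f (t • x + y) = R.eval t := by
    have hLe : L.eval t = (t • x + y).2 := by
      simp [hL]
      ring
    unfold cubic
    rw [hR, Polynomial.eval_add, Polynomial.eval_add, Polynomial.eval_pow, Polynomial.eval_mul,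
      hLe, ← hPe, ← hQe]
    rfl
  rw [h1, Polynomial.eval_eq_sum_range' hRd]
  simp [Finset.sum_range_succ]

/-- at a singular point `p` of the cubic form, `F(t p + y)` is affine in `t`, and the linear
coefficient is homogeneous of degree `2` in `y` -/
lemma cubic_singular (hg : g.IsHomogeneous 2) (hf : f.IsHomogeneous 3) (p : (Fin n → ℂ) × ℂ)
    (hp : fderiv ℂ (cubic g f) p = 0) (y : (Fin n → ℂ) × ℂ) :
    (∀ t : ℂ, cubic g f (t • p + y) = cubic g f y + t * (cubic g f (p + y) - cubic g f y)) ∧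
    (∀ s : ℂ, cubic g f (p + s • y) - cubic g f (s • y) =
      s ^ 2 * (cubic g f (p + y) - cubic g f y)) := by
  obtain ⟨c0, c1, c2, c3, hc⟩ := cubic_line hg hf p y
  have hpp : cubic g f p = 0 := by
    have := euler cubic_differentiable (cubic_smul hg hf) p
    rw [hp] at this
    simpa using this.symm
  have hs : ∀ s : ℂ, cubic g f (p + s • y) = c0 * s ^ 3 + c1 * s ^ 2 + c2 * s + c3 := by
    have h1 : Continuous fun s : ℂ => cubic g f (p + s • y) :=
      cubic_differentiable.continuous.comp (by fun_prop)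
    have h2 : Continuous fun s : ℂ => c0 * s ^ 3 + c1 * s ^ 2 + c2 * s + c3 := by fun_prop
    have h3 : (fun s : ℂ => cubic g f (p + s • y)) =
        fun s : ℂ => c0 * s ^ 3 + c1 * s ^ 2 + c2 * s + c3 := by
      refine Continuous.ext_on (dense_compl_singleton (0:ℂ)) h1 h2 fun s hs => ?_
      have hs0 : s ≠ 0 := hs
      have : p + s • y = s • (s⁻¹ • p + y) := by
        rw [smul_add, smul_smul, mul_inv_cancel₀ hs0, one_smul]
      rw [this, cubic_smul hg hf, hc]
      field_simp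
    intro s
    exact congrFun h3 s
  have hc3 : c3 = 0 := by
    have := hs 0
    simp only [zero_smul, add_zero] at this
    rw [hpp] at this
    simpa using this.symm
  have hc2 : c2 = 0 := by
    have h1 : HasDerivAt (fun s : ℂ => p + s • y) y 0 := by
      simpa using ((hasDerivAt_id (0:ℂ)).smul_const y).const_add p
    have h2 : HasFDerivAt (cubic g f) (fderiv ℂ (cubic g f) p) ((fun s : ℂ => p + s • y) 0) := by
      simpa using (cubic_differentiable (g := g) (f := f) p).hasFDerivAt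
    have h3 := h2.comp_hasDerivAt (0:ℂ) h1
    rw [hp] at h3
    have h4 : (cubic g f ∘ fun s : ℂ => p + s • y) =
        fun s : ℂ => c0 * s ^ 3 + c1 * s ^ 2 + c2 * s + c3 := by
      funext s; exact hs s
    rw [h4] at h3
    have h5 : HasDerivAt (fun s : ℂ => c0 * s ^ 3 + c1 * s ^ 2 + c2 * s + c3) c2 0 := by
      have := ((((hasDerivAt_pow 3 (0:ℂ)).const_mul c0).add
        ((hasDerivAt_pow 2 (0:ℂ)).const_mul c1)).add
        ((hasDerivAt_id (0:ℂ)).const_mul c2)).add_const c3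
      refine this.congr_deriv ?_
      simp
    have := h3.unique h5
    simpa using this.symm
  have h0 : cubic g f y = c0 := by
    have := hc 0
    simpa using this
  have h1 : cubic g f (p + y) = c0 + c1 := by
    have := hc 1
    simp only [one_smul] at this
    rw [this, hc2, hc3]; ring
  constructor
  · intro t
    rw [hc t, h0, h1, hc2, hc3]; ring
  · intro s
    rw [hs s, cubic_smul hg hf, h0, h1, hc2, hc3]; ring

end

/-- a splitting of `ℂ^{n+1}` along a nonzero vector -/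
lemma exists_split {n : ℕ} {p : (Fin n → ℂ) × ℂ} (hp : p ≠ 0) :
    ∃ (ℓ : ((Fin n → ℂ) × ℂ) →L[ℂ] ℂ) (T : ((Fin n → ℂ) × ℂ) →L[ℂ] (Fin n → ℂ))
      (S : (Fin n → ℂ) →L[ℂ] ((Fin n → ℂ) × ℂ)), ∀ x, x = ℓ x • p + S (T x) := by
  obtain ⟨ℓ, hℓ⟩ := SeparatingDual.exists_eq_one (R := ℂ) hp
  have hsurj : Function.Surjective (ℓ : ((Fin n → ℂ) × ℂ) →ₗ[ℂ] ℂ) := by
    intro c
    exact ⟨c • p, by simp [hℓ]⟩
  have hfin : Module.finrank ℂ (LinearMap.ker (ℓ : ((Fin n → ℂ) × ℂ) →ₗ[ℂ] ℂ)) =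
      Module.finrank ℂ (Fin n → ℂ) := by
    have h1 := LinearMap.finrank_range_add_finrank_ker (ℓ : ((Fin n → ℂ) × ℂ) →ₗ[ℂ] ℂ)
    rw [LinearMap.range_eq_top.mpr hsurj, finrank_top] at h1
    simp at h1 ⊢
    omega
  let e : LinearMap.ker (ℓ : ((Fin n → ℂ) × ℂ) →ₗ[ℂ] ℂ) ≃ₗ[ℂ] (Fin n → ℂ) :=
    LinearEquiv.ofFinrankEq _ _ hfin
  let π : ((Fin n → ℂ) × ℂ) →ₗ[ℂ] LinearMap.ker (ℓ : ((Fin n → ℂ) × ℂ) →ₗ[ℂ] ℂ) :=
    LinearMap.codRestrict _ (LinearMap.id - (ℓ : ((Fin n → ℂ) × ℂ) →ₗ[ℂ] ℂ).smulRight p) (by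
      intro x
      simp [hℓ])
  refine ⟨ℓ, LinearMap.toContinuousLinearMap (e.toLinearMap ∘ₗ π),
    LinearMap.toContinuousLinearMap ((LinearMap.ker _).subtype ∘ₗ e.symm.toLinearMap), ?_⟩
  intro x
  have hπ : ((π x : LinearMap.ker (ℓ : ((Fin n → ℂ) × ℂ) →ₗ[ℂ] ℂ)) : (Fin n → ℂ) × ℂ) =
      x - ℓ x • p := rfl
  simp only [LinearMap.coe_toContinuousLinearMap', LinearMap.comp_apply,
    LinearEquiv.coe_coe, LinearEquiv.symm_apply_apply, Submodule.subtype_apply, hπ]
  abel

/-- **Affine cubic hypersurfaces of singular cubic forms immerse.** -/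
theorem singular_cubic_immersion (n : ℕ) (g f : MvPolynomial (Fin n) ℂ) (hg : g.IsHomogeneous 2)
    (hf : f.IsHomogeneous 3) (p : (Fin n → ℂ) × ℂ) (hp : p ≠ 0)
    (hsing : fderiv ℂ (cubic g f) p = 0) :
    ∃ F : (Fin n → ℂ) × ℂ → (Fin n → ℂ), Differentiable ℂ F ∧
      ∀ z : (Fin n → ℂ) × ℂ, cubic g f z = 1 → ∀ v : (Fin n → ℂ) × ℂ,
        fderiv ℂ (cubic g f) z v = 0 → fderiv ℂ F z v = 0 → v = 0 := by
  obtain ⟨ℓ, T, S, hsplit⟩ := exists_split hp
  have hsing' := cubic_singular hg hf p hsing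
  set G : (Fin n → ℂ) → ℂ := fun u => cubic g f (p + S u) - cubic g f (S u) with hG
  set f₀ : (Fin n → ℂ) → ℂ := fun u => cubic g f (S u) with hf₀
  have hcd : Differentiable ℂ (cubic g f) := cubic_differentiable
  have hGd : Differentiable ℂ G := by
    have h1 : Differentiable ℂ (fun u => cubic g f (p + S u)) :=
      hcd.comp (S.differentiable.const_add p)
    have h2 : Differentiable ℂ (fun u => cubic g f (S u)) := hcd.comp S.differentiable
    exact h1.sub h2
  have hf₀d : Differentiable ℂ f₀ := hcd.comp S.differentiable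
  obtain ⟨Φ, hΦ, hinj⟩ := immersion_core G f₀ hGd hf₀d
    (fun t u => by
      simp only [hG]
      rw [map_smul]
      exact (hsing' (S u)).2 t)
    (fun t u => by
      simp only [hf₀]
      rw [map_smul]
      exact cubic_smul hg hf t (S u))
  have hA : Differentiable ℂ (fun x : (Fin n → ℂ) × ℂ => ((T x, ℓ x) : (Fin n → ℂ) × ℂ)) := by
    fun_prop
  have hcore : cubic g f = (fun q : (Fin n → ℂ) × ℂ => q.2 * G q.1 + f₀ q.1) ∘
      (fun x : (Fin n → ℂ) × ℂ => ((T x, ℓ x) : (Fin n → ℂ) × ℂ)) := by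
    funext x
    simp only [Function.comp_apply, hG, hf₀]
    conv_lhs => rw [hsplit x]
    rw [(hsing' (S (T x))).1 (ℓ x)]
    ring
  have hder : ∀ x v : (Fin n → ℂ) × ℂ, fderiv ℂ (fun x : (Fin n → ℂ) × ℂ =>
      ((T x, ℓ x) : (Fin n → ℂ) × ℂ)) x v = (T v, ℓ v) := by
    intro x v
    have : HasFDerivAt (fun x : (Fin n → ℂ) × ℂ => ((T x, ℓ x) : (Fin n → ℂ) × ℂ))
        (T.prod ℓ) x := (T.prod ℓ).hasFDerivAt
    rw [this.fderiv]; rfl
  have hcored : Differentiable ℂ (fun q : (Fin n → ℂ) × ℂ => q.2 * G q.1 + f₀ q.1) := by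
    have h1 : Differentiable ℂ (fun q : (Fin n → ℂ) × ℂ => G q.1) := hGd.comp differentiable_fst
    have h2 : Differentiable ℂ (fun q : (Fin n → ℂ) × ℂ => f₀ q.1) :=
      hf₀d.comp differentiable_fst
    fun_prop
  refine ⟨fun x => Φ (T x, ℓ x), hΦ.comp hA, ?_⟩
  intro z hz v htan hker
  have h1 : ℓ z * G (T z) + f₀ (T z) = 1 := by
    rw [hcore] at hz
    exact hz
  have h2 : fderiv ℂ (fun q : (Fin n → ℂ) × ℂ => q.2 * G q.1 + f₀ q.1) (T z, ℓ z) (T v, ℓ v)
      = 0 := by
    rw [hcore, fderiv_comp z (hcored _) (hA z)] at htan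
    rw [ContinuousLinearMap.comp_apply, hder] at htan
    exact htan
  have h3 : fderiv ℂ Φ (T z, ℓ z) (T v, ℓ v) = 0 := by
    have h4 : (fun x => Φ (T x, ℓ x)) = Φ ∘ (fun x : (Fin n → ℂ) × ℂ =>
      ((T x, ℓ x) : (Fin n → ℂ) × ℂ)) := rfl
    rw [h4, fderiv_comp z (hΦ _) (hA z), ContinuousLinearMap.comp_apply, hder] at hker
    exact hker
  have h5 := hinj (T z, ℓ z) h1 (T v, ℓ v) h2 h3
  have h6 : T v = 0 := congrArg Prod.fst h5
  have h7 : ℓ v = 0 := congrArg Prod.snd h5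
  rw [hsplit v, h6, h7]
  simp

end Pool.Agent.Helper24.Cubic
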